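import Pool.Agent.H.MP_523fe6_co.A

set_option autoImplicit false

namespace Pool.Agent.Results.MP_523fe6_co.Q2

open Finset Polynomial

/-- The polynomial m(m+1)...(m+a-1)/a! in the variable m. -/
noncomputable def mch (a : ℕ) : ℚ[X] := C ((a.factorial : ℚ)⁻¹) * ∏ s ∈ range a, (X + C (s : ℚ))

/-- The polynomial S_n(m,1) for n = 2r+1. -/
noncomputable def S1 (r : ℕ) : ℚ[X] := ∑ i ∈ range r, C ((r : ℚ) - i) * mch i * mch (2 * r + 1 - i)

theorem result (r : ℕ) (hr : 1 ≤ r) (l : ℕ) :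
    (S1 r).coeff l * (S1 r).coeff (l + 2) ≤ (S1 r).coeff (l + 1) ^ 2 := by
  obtain ⟨r, rfl⟩ : ∃ r', r = r' + 1 := ⟨r - 1, by omega⟩
  have h := (Pool.Agent.H.MP_523fe6_co.main r).2 l l le_rfl
  have e : ∑ i ∈ range (r + 1), C (((r + 1 : ℕ) : ℝ) - i) * Pool.Agent.H.MP_523fe6_co.mc i *
      Pool.Agent.H.MP_523fe6_co.mc (2 * (r + 1) + 1 - i) = (S1 (r + 1)).map (Rat.castHom ℝ) := by
    simp only [S1, mch, Pool.Agent.H.MP_523fe6_co.mc, Polynomial.map_sum, Polynomial.map_mul, Polynomial.map_prod,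
      Polynomial.map_add, map_C, map_X, map_sub, map_inv₀, map_natCast, Polynomial.map_sub, Polynomial.map_natCast]
  rw [e, coeff_map, coeff_map, coeff_map, ← sq] at h
  simp only [Rat.coe_castHom] at h
  exact_mod_cast h

end Pool.Agent.Results.MP_523fe6_co.Q2
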